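import Pool.Agent.Lib.L8.PQX.Main
import Pool.Agent.Lib.L8.QF.M6

/-!
# Quasi-split groups: the density theorem, from the count
-/

namespace Pool.Agent.Lib.L8.PQX

open MeasureTheory Matrix NumberField IsDedekindDomain

noncomputable section

variable {ι M N : Type} [Fintype ι] [DecidableEq ι] [AddCommGroup M] [Module ℚ M] [AddCommGroup N] [Module ℚ N]
  {P : RootPairing ι ℚ M N} [P.IsCrystallographic] [P.IsRootSystem] [P.IsReduced] [P.IsIrreducible] {b : P.Base} {K L : Type} [Field K] [NumberField K] [Field L] [NumberField L] [Algebra K L]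

theorem dim_half {q q' : Prop} {D : ℕ} (h : Dim b q q' D) : (0 : ℝ) < (D : ℝ) / 2 := by
  have h1 : (0 : ℝ) < (D : ℝ) := by exact_mod_cast (dim_bd h).1
  linarith

theorem dim_split {q q' : Prop} (h' : ¬q') {D : ℕ} (h : Dim b q q' D) : q ∧ Dim b True False D := by
  rcases h with ⟨h1, h2⟩ | ⟨h1, _⟩
  · exact ⟨h1, Or.inl ⟨trivial, h2⟩⟩
  · exact absurd h1 h'

theorem dim_quasi {q q' : Prop} (h' : ¬q) {D : ℕ} (h : Dim b q q' D) : q' ∧ Dim b False True D := by
  rcases h with ⟨h1, _⟩ | ⟨h1, h2⟩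
  · exact absurd h1 h'
  · exact ⟨h1, Or.inr ⟨trivial, h2⟩⟩

theorem fin_deg_one (h : Module.finrank K L = 1) (Q : QS b K L) : ¬∃ s i, sp Q s i ≠ i := by
  rintro ⟨s, i, hs⟩
  have h1 : s = 1 := by
    have h2 : Function.Surjective (algebraMap K L) := by
      have h3 := Subalgebra.bot_eq_top_of_finrank_eq_one h
      intro x
      have h4 : x ∈ (⊥ : Subalgebra K L) := h3 ▸ Algebra.mem_top
      exact Algebra.mem_bot.1 h4
    ext x
    obtain ⟨y, rfl⟩ := h2 x
    rw [s.commutes]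
    rfl
  apply hs
  rw [h1]
  apply Subtype.ext
  show Q.act 1 i = i
  rw [map_one]
  rfl

/-- **The density theorem**, from the count: exponents `ν` for the split group (`[L : K] = 1`) and `ν'` for the quasi-split groups with a nontrivial action. -/
theorem beyondQ_of_counts (Q : QS b K L) [IsGalois K L]
    (hs : Module.finrank K L = 1 → ∃ nu : Equiv.Perm ι → ℝ, (∀ D, Dim b True False D → L8.FL.IneqR b ((D : ℝ) / 2) nu) ∧ L8.FL.CountH b L nu)
    (hq : (∃ s i, sp Q s i ≠ i) → ∃ nu : Equiv.Perm ι → ℝ, (∀ D, Dim b False True D → L8.QF.IneqQ (q0 Q) ((D : ℝ) / 2) nu) ∧ L8.QF.CountQ (q0 Q) nu) : BeyondDensityQ Q := by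
  refine beyondQ_of Q fun D hD => ?_
  by_cases h1 : Module.finrank K L = 1
  · obtain ⟨_, h2⟩ := dim_split (fin_deg_one h1 Q) hD
    obtain ⟨nu, h3, h4⟩ := hs h1
    exact L8.QF.statementDQ_split (q0 Q) h1 (dim_half hD) (h3 D h2) h4
  · obtain ⟨h2, h3⟩ := dim_quasi h1 hD
    obtain ⟨nu, h4, h5⟩ := hq h2
    exact L8.QF.statementDQ_quasi (q0 Q) (dim_half hD) (h4 D h3) h5

end

end Pool.Agent.Lib.L8.PQX
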