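import Pool.Agent.Lib.L8.PQX.Main
import Pool.Agent.Lib.L8.FN.NQ3

/-!
# The numbers of the outer forms (helper80)
-/

namespace Pool.Agent.Lib.L8.PQX

noncomputable section

set_option linter.unusedSectionVars false

variable {ι M N : Type} [Fintype ι] [DecidableEq ι] [AddCommGroup M] [Module ℚ M] [AddCommGroup N] [Module ℚ N]
  {P : RootPairing ι ℚ M N} [P.IsCrystallographic] [P.IsRootSystem] [P.IsReduced] [P.IsIrreducible] {b : P.Base} {K L : Type} [Field K] [NumberField K] [Field L] [NumberField L] [Algebra K L]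

theorem dimO_of {D : ℕ} (h : Dim b False True D) : L8.FN.DimO b D := by
  rcases h with ⟨h1, _⟩ | ⟨_, h2⟩
  · exact absurd h1 id
  · exact h2

/-- **The numbers of the outer forms**, with the exponents `FN.nuN`. -/
theorem dimQ_ineq (Q : QS b K L) (hq : ∃ s i, sp Q s i ≠ i) (D : ℕ) (h : Dim b False True D) : L8.QF.IneqQ (q0 Q) ((D : ℝ) / 2) (L8.FN.nuN (q0 Q)) :=
  L8.FN.ineqQ_dimO (q0 Q) hq (dimO_of h)

end

end Pool.Agent.Lib.L8.PQX
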