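import Pool.Agent.Lib.L8.PQX.FinS
import Pool.Agent.Lib.L8.PQX.NumQ
import Pool.Agent.Lib.L8.FN.NG

/-!
# The quasi-split groups: both theorems, unconditional
-/

namespace Pool.Agent.Lib.L8.PQX

open MeasureTheory Matrix NumberField IsDedekindDomain

noncomputable section

set_option linter.unusedSectionVars false

variable {ι M N : Type} [Fintype ι] [DecidableEq ι] [AddCommGroup M] [Module ℚ M] [AddCommGroup N] [Module ℚ N]
  {P : RootPairing ι ℚ M N} [P.IsCrystallographic] [P.IsRootSystem] [P.IsReduced] [P.IsIrreducible] {b : P.Base} {K L : Type} [Field K] [NumberField K] [Field L] [NumberField L] [Algebra K L]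

/-- **The quasi-split branch.** -/
theorem quasi_counts (Q : QS b K L) [IsGalois K L] (hq : ∃ s i, sp Q s i ≠ i) : ∃ nu : Equiv.Perm ι → ℝ, (∀ D, Dim b False True D → L8.QF.IneqQ (q0 Q) ((D : ℝ) / 2) nu) ∧ L8.QF.CountQ (q0 Q) nu :=
  ⟨L8.FN.nuN (q0 Q), fun D h => dimQ_ineq Q hq D h, L8.FN.countQ_full (q0 Q) hq⟩

/-- **The density theorem for the quasi-split groups**. -/
theorem beyondQ (Q : QS b K L) [IsGalois K L] : BeyondDensityQ Q := beyondQ_of_counts Q (fun _ => split_counts b L) (quasi_counts Q)

/-- **The density theorem for test operators**. -/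
theorem operatorQ (Q : QS b K L) [IsGalois K L] : PQO.OperatorDensity Q := PQO.operator_of_counts Q (fun _ => split_counts b L) (quasi_counts Q)

end

end Pool.Agent.Lib.L8.PQX
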