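import Pool.Agent.Lib.L8.PQX.Stm
import Pool.Agent.Lib.L8.FN.TS
import Pool.Agent.Lib.L8.FL.BR
import Pool.Agent.Lib.L8.FN.SA
import Pool.Agent.Lib.L8.FN.SB
import Pool.Agent.Lib.L8.FN.SD
import Pool.Agent.Lib.L8.FN.W2

/-!
# The numbers of the split groups: the inequality for all types of the table (helper76)

`dimS_ineq`: for the numbers `D` of the table of the split groups (`PQX.Dim`) the inequality holds with the exponents `nuB`.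
-/

namespace Pool.Agent.Lib.L8.PQX

open Matrix

noncomputable section

set_option linter.unusedSectionVars false

variable {ι M N : Type} [Fintype ι] [DecidableEq ι] [AddCommGroup M] [Module ℚ M] [AddCommGroup N] [Module ℚ N]
  {P : RootPairing ι ℚ M N} [P.IsCrystallographic] [P.IsReduced] [P.IsIrreducible] [P.IsRootSystem] {b : P.Base}

theorem typ_7 {n : ℕ} {A : Matrix (Fin n) (Fin n) ℤ} (h : Typ b A) : L8.F7.Typ b A := h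

/-- Type `C_n`, `n ≥ 4`: `rank + 1`. -/
theorem ineqR_Cn {n : ℕ} (hn : 4 ≤ n) (h : L8.F7.Typ b (CartanMatrix.C n)) : L8.FL.IneqR b (((6 * n ^ 2 : ℕ) : ℝ) / 2) (L8.FL.nuB b) :=
  L8.FL.ineqR_B (L8.FL.ci1_big (Or.inl ⟨n, Or.inr (Or.inr (Or.inr (Or.inr (Or.inl ⟨hn, h, rfl⟩))))⟩))

theorem ns_setA {n : ℕ} (hn : 2 ≤ n) : ({⟨0, by omega⟩, ⟨n - 1, by omega⟩} : Finset (Fin n)) = L8.FN.sA n := by
  ext i
  rw [L8.FN.mem_sA, Finset.mem_insert, Finset.mem_singleton, Fin.ext_iff, Fin.ext_iff]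
  show (i : ℕ) = 0 ∨ (i : ℕ) = n - 1 ↔ _
  omega

theorem ns_setB {n : ℕ} (hn : 2 ≤ n) : ({⟨0, by omega⟩} : Finset (Fin n)) = L8.FN.sB n := by
  ext i
  rw [L8.FN.mem_sB, Finset.mem_singleton, Fin.ext_iff]

/-- Type `A_n`, `n ≥ 8`. -/
theorem ineqR_An {n : ℕ} (hn : 8 ≤ n) (h : L8.F7.Typ b (CartanMatrix.A n)) : L8.FL.IneqR b (((n * (3 * n + 2) : ℕ) : ℝ) / 2) (L8.FL.nuB b) := by
  have e1 : ((n * (3 * n + 2) : ℕ) : ℝ) / 2 = (n : ℝ) * (3 * n + 2) / 2 := by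
    push_cast
    ring
  rw [e1]
  refine L8.FN.ineqR_An (by omega) h (fun S _ hS => L8.FN.shA hn ?_) (L8.FN.shA' hn _)
  rw [ns_setA (by omega)]
  exact hS

/-- Type `B_n`, `n ≥ 5`. -/
theorem ineqR_Bn {n : ℕ} (hn : 5 ≤ n) (h : L8.F7.Typ b (CartanMatrix.B n)) : L8.FL.IneqR b ((((2 * n - 1) * (3 * n + 2) : ℕ) : ℝ) / 2) (L8.FL.nuB b) := by
  have e1 : (((2 * n - 1) * (3 * n + 2) : ℕ) : ℝ) / 2 = (2 * (n : ℝ) - 1) * (3 * n + 2) / 2 := by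
    rw [Nat.cast_mul, Nat.cast_sub (by omega)]
    push_cast
    ring
  rw [e1]
  refine L8.FN.ineqR_Bn (by omega) h (fun S _ hS => L8.FN.shB hn ?_) (L8.FN.shB' hn _)
  rw [ns_setB (by omega)]
  exact hS

/-- Type `D_n`, `n ≥ 7`. -/
theorem ineqR_Dn {n : ℕ} (hn : 7 ≤ n) (h : L8.F7.Typ b (CartanMatrix.D n)) : L8.FL.IneqR b (((6 * n * (n - 1) : ℕ) : ℝ) / 2) (L8.FL.nuB b) := by
  have e1 : ((6 * n * (n - 1) : ℕ) : ℝ) / 2 = 3 * (n : ℝ) * (n - 1) := by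
    rw [Nat.cast_mul, Nat.cast_sub (by omega)]
    push_cast
    ring
  rw [e1]
  refine L8.FN.ineqR_Dn (by omega) h (fun S _ hS => L8.FN.shD hn ?_) (L8.FN.shD' hn _)
  rw [ns_setB (by omega)]
  exact hS

/-- **All split types.** -/
theorem dimS_ineq {D : ℕ} (h : Dim b True False D) : L8.FL.IneqR b ((D : ℝ) / 2) (L8.FL.nuB b) := by
  have S : ∀ {D : ℕ}, L8.FN.SmS b D → L8.FL.IneqR b ((D : ℝ) / 2) (L8.FL.nuB b) := fun h => L8.FN.ineqR_SmS h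
  rcases h with ⟨_, ⟨n, ⟨rfl, h3, rfl⟩ | ⟨h1, h3, rfl⟩ | ⟨rfl, h3, rfl⟩ | ⟨rfl, h3, rfl⟩ | ⟨h1, h3, rfl⟩ | ⟨h1, h3, rfl⟩ | ⟨h1, h3, rfl⟩⟩ | ⟨h3, rfl⟩ | ⟨h3, rfl⟩ | ⟨h3, rfl⟩ | ⟨h3, rfl⟩ | ⟨h3, rfl⟩⟩ | ⟨h, _⟩
  · exact S (Or.inl ⟨typ_7 h3, rfl⟩)
  · by_cases h8 : 8 ≤ n
    · exact ineqR_An h8 (typ_7 h3)
    · have h9 : n = 2 ∨ n = 3 ∨ n = 4 ∨ n = 5 ∨ n = 6 ∨ n = 7 := by omega
      rcases h9 with rfl | rfl | rfl | rfl | rfl | rfl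
      · exact S (Or.inr (Or.inl ⟨typ_7 h3, rfl⟩))
      · exact S (Or.inr (Or.inr (Or.inl ⟨typ_7 h3, rfl⟩)))
      · exact S (Or.inr (Or.inr (Or.inr (Or.inl ⟨typ_7 h3, rfl⟩))))
      · exact S (Or.inr (Or.inr (Or.inr (Or.inr (Or.inl ⟨typ_7 h3, rfl⟩)))))
      · exact S (Or.inr (Or.inr (Or.inr (Or.inr (Or.inr (Or.inl ⟨typ_7 h3, rfl⟩))))))
      · exact S (Or.inr (Or.inr (Or.inr (Or.inr (Or.inr (Or.inr (Or.inl ⟨typ_7 h3, rfl⟩)))))))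
  · exact S (by unfold L8.FN.SmS; exact Or.inr (Or.inr (Or.inr (Or.inr (Or.inr (Or.inr (Or.inr (Or.inl ⟨typ_7 h3, rfl⟩))))))))
  · exact S (Or.inr (Or.inr (Or.inr (Or.inr (Or.inr (Or.inr (Or.inr (Or.inr (Or.inl ⟨typ_7 h3, rfl⟩)))))))))
  · by_cases h5 : 5 ≤ n
    · exact ineqR_Bn h5 (typ_7 h3)
    · obtain rfl : n = 4 := by omega
      exact S (Or.inr (Or.inr (Or.inr (Or.inr (Or.inr (Or.inr (Or.inr (Or.inr (Or.inr (Or.inl ⟨typ_7 h3, rfl⟩))))))))))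
  · by_cases h4 : 4 ≤ n
    · exact ineqR_Cn h4 (typ_7 h3)
    · obtain rfl : n = 3 := by omega
      exact S (Or.inr (Or.inr (Or.inr (Or.inr (Or.inr (Or.inr (Or.inr (Or.inr (Or.inr (Or.inr (Or.inl ⟨typ_7 h3, rfl⟩)))))))))))
  · by_cases h7 : 7 ≤ n
    · exact ineqR_Dn h7 (typ_7 h3)
    · have h9 : n = 4 ∨ n = 5 ∨ n = 6 := by omega
      rcases h9 with rfl | rfl | rfl
      · exact S (Or.inr (Or.inr (Or.inr (Or.inr (Or.inr (Or.inr (Or.inr (Or.inr (Or.inr (Or.inr (Or.inr (Or.inl ⟨typ_7 h3, rfl⟩))))))))))))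
      · exact S (Or.inr (Or.inr (Or.inr (Or.inr (Or.inr (Or.inr (Or.inr (Or.inr (Or.inr (Or.inr (Or.inr (Or.inr (Or.inl ⟨typ_7 h3, rfl⟩)))))))))))))
      · exact S (Or.inr (Or.inr (Or.inr (Or.inr (Or.inr (Or.inr (Or.inr (Or.inr (Or.inr (Or.inr (Or.inr (Or.inr (Or.inr (Or.inl ⟨typ_7 h3, rfl⟩))))))))))))))
  · exact S (Or.inr (Or.inr (Or.inr (Or.inr (Or.inr (Or.inr (Or.inr (Or.inr (Or.inr (Or.inr (Or.inr (Or.inr (Or.inr (Or.inr (Or.inl ⟨typ_7 h3, rfl⟩)))))))))))))))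
  · exact S (Or.inr (Or.inr (Or.inr (Or.inr (Or.inr (Or.inr (Or.inr (Or.inr (Or.inr (Or.inr (Or.inr (Or.inr (Or.inr (Or.inr (Or.inr (Or.inl ⟨typ_7 h3, rfl⟩))))))))))))))))
  · exact S (Or.inr (Or.inr (Or.inr (Or.inr (Or.inr (Or.inr (Or.inr (Or.inr (Or.inr (Or.inr (Or.inr (Or.inr (Or.inr (Or.inr (Or.inr (Or.inr (Or.inl ⟨typ_7 h3, rfl⟩)))))))))))))))))
  · exact S (Or.inr (Or.inr (Or.inr (Or.inr (Or.inr (Or.inr (Or.inr (Or.inr (Or.inr (Or.inr (Or.inr (Or.inr (Or.inr (Or.inr (Or.inr (Or.inr (Or.inr (Or.inl ⟨typ_7 h3, rfl⟩))))))))))))))))))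
  · exact S (Or.inr (Or.inr (Or.inr (Or.inr (Or.inr (Or.inr (Or.inr (Or.inr (Or.inr (Or.inr (Or.inr (Or.inr (Or.inr (Or.inr (Or.inr (Or.inr (Or.inr (Or.inr ⟨typ_7 h3, rfl⟩))))))))))))))))))
  · exact absurd h id

end

end Pool.Agent.Lib.L8.PQX
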