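import Pool.Agent.Lib.L8.PQX.Fin
import Pool.Agent.Lib.L8.PQX.NumS
import Pool.Agent.Lib.L8.PQO.Main
import Pool.Agent.Lib.L8.FU.W9

/-!
# The split groups: both theorems, unconditional (helper76)
-/

namespace Pool.Agent.Lib.L8.PQX

open MeasureTheory Matrix NumberField IsDedekindDomain

noncomputable section

set_option linter.unusedSectionVars false

variable {ι M N : Type} [Fintype ι] [DecidableEq ι] [AddCommGroup M] [Module ℚ M] [AddCommGroup N] [Module ℚ N]
  {P : RootPairing ι ℚ M N} [P.IsCrystallographic] [P.IsRootSystem] [P.IsReduced] [P.IsIrreducible] {b : P.Base} {K L : Type} [Field K] [NumberField K] [Field L] [NumberField L] [Algebra K L]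

/-- **The split branch**, with the sharp numbers. -/
theorem split_counts (b : P.Base) (L : Type) [Field L] [NumberField L] : ∃ nu : Equiv.Perm ι → ℝ, (∀ D, Dim b True False D → L8.FL.IneqR b ((D : ℝ) / 2) nu) ∧ L8.FL.CountH b L nu :=
  ⟨L8.FL.nuB b, fun _ h => dimS_ineq h, L8.FU.countH_nuB b L⟩

/-- **The density theorem for the split groups**. -/
theorem beyondQ_split (Q : QS b K L) [IsGalois K L] (h : ∀ s i, sp Q s i = i) : BeyondDensityQ Q :=
  beyondQ_of_counts Q (fun _ => split_counts b L) fun ⟨s, i, h1⟩ => absurd (h s i) h1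

/-- **The density theorem for test operators, for the split groups**. -/
theorem operator_split (Q : QS b K L) [IsGalois K L] (h : ∀ s i, sp Q s i = i) : PQO.OperatorDensity Q :=
  PQO.operator_of_counts Q (fun _ => split_counts b L) fun ⟨s, i, h1⟩ => absurd (h s i) h1

end

end Pool.Agent.Lib.L8.PQX
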