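import Pool.Agent.Lib.L8.PV.Main
import Pool.Agent.Lib.L8.PQX.Stm
import Pool.Agent.Lib.L8.QF.M5

/-!
# Beyond the density hypothesis, quasi-split groups: the equivalence of the two forms of the statement
-/

namespace Pool.Agent.Lib.L8.PQX

open MeasureTheory Matrix NumberField IsDedekindDomain

noncomputable section

set_option linter.unusedSectionVars false

variable {ι M N : Type} [Fintype ι] [DecidableEq ι] [AddCommGroup M] [Module ℚ M] [AddCommGroup N] [Module ℚ N]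
  {P : RootPairing ι ℚ M N} [P.IsCrystallographic] {b : P.Base} {K L : Type} [Field K] [NumberField K] [Field L] [NumberField L] [Algebra K L] (Q : QS b K L)

/-- The action in the form of `PV`. -/
def oq : PV.QS b K L := ⟨Q.act, Q.base, Q.pair⟩

/-- The action in the form of QStm.lean. -/
abbrev q0 : L1S.QS b K L := PV.old (oq Q)

/-- The height. -/
abbrev hb (b : P.Base) : b.support ⊕ ι → ℤ := Sum.elim (fun _ => 0) b.height

/-- `e_i`, `f_i`. -/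
abbrev eb (b : P.Base) : b.support → Matrix (b.support ⊕ ι) (b.support ⊕ ι) ℚ := RootPairing.GeckConstruction.e

abbrev fb (b : P.Base) : b.support → Matrix (b.support ⊕ ι) (b.support ⊕ ι) ℚ := RootPairing.GeckConstruction.f

/-- The real group. -/
abbrev Gr : Type := RG (n := b.support ⊕ ι) (mixedEmbedding L) (GL' L b) (GQ Q)

/-- Its matrices. -/
abbrev Mr : Gr Q →* Matrix (b.support ⊕ ι) (b.support ⊕ ι) (mixedEmbedding.mixedSpace L) := matR (mixedEmbedding L) (GL' L b) (GQ Q)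

/-- The matrices of `G(K)`. -/
abbrev Mh : GQ Q →* Matrix (b.support ⊕ ι) (b.support ⊕ ι) L := (mat (GL' L b)).comp (GQ Q).subtype

/-- The embedding. -/
abbrev em0 : GQ Q →* Gr Q := emR (mixedEmbedding L) (GL' L b) (GQ Q)

/-- The embeddings of the local group. -/
abbrev PlQ (F : Type) [RCLike F] : Type := Pl (matF (eb b) (fb b) F) K (fun w : InfinitePlace L => (mixedEmbedding.normAtPlace w : mixedEmbedding.mixedSpace L → ℝ)) (Mr Q)

theorem gq_eq : GQ Q = L1S.HQ (q0 Q) := rfl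

theorem gr_eq : Gr Q = L1S.HRt (L1S.HQ (q0 Q)) := rfl

theorem uni_eq : Uni (hb b) (Mr Q) = L1S.UHR (L1S.HQ (q0 Q)) := rfl

/-! ## Levels and Hecke elements -/

theorem inO_top (x : L) : InO (⊤ : Ideal (𝓞 K)) x ↔ L1S.InI (⊤ : Ideal (𝓞 L)) x := by
  unfold InO
  rw [Ideal.map_top]
  rfl

theorem intV_iff (v : HeightOneSpectrum (𝓞 K)) (x : L) : IntV v x ↔ L1S.IntV v x := by
  unfold IntV L1S.IntV
  simp only [inO_top]

theorem iwV_of {v : HeightOneSpectrum (𝓞 K)} {r s : ℕ} {π : K} {g : Matrix (b.support ⊕ ι) (b.support ⊕ ι) L} (h : IwV v r s (hb b) π g) : L1S.IwV b v r s π g := fun i j =>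
  ⟨(intV_iff v _).1 (h i j).1, fun e => (intV_iff v _).1 ((h i j).2.1 e), fun e => (intV_iff v _).1 ((h i j).2.2 e)⟩

theorem gamA_eq (𝔫 : Ideal (𝓞 K)) (v : HeightOneSpectrum (𝓞 K)) (r s : ℕ) : GamA 𝔫 v r s (hb b) (Mh Q) = L1S.GamQ (L1S.HQ (q0 Q)) 𝔫 v r s := by
  ext g
  exact ⟨fun h i j => ⟨h.1 i j, h.2 i j⟩, fun h => ⟨fun i j => (h i j).1, fun i j => (h i j).2⟩⟩

theorem gam_eq (𝔫 : Ideal (𝓞 K)) (v : HeightOneSpectrum (𝓞 K)) (r s : ℕ) : Gam 𝔫 v r s (hb b) (Mh Q) (em0 Q) = L1S.GamHR (L1S.HQ (q0 Q)) 𝔫 v r s := by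
  unfold Gam
  rw [gamA_eq]
  rfl

theorem hgl_of {𝔫 : Ideal (𝓞 K)} {v : HeightOneSpectrum (𝓞 K)} {h : GQ Q} (hh : h ∈ HG 𝔫 v (Mh Q)) : h.1 ∈ L1S.HGL b L 𝔫 v := by
  obtain ⟨j, hj⟩ := hh
  exact ⟨j, fun r c => ⟨fun y hy => (hj r c y hy).1, fun y hy => (hj r c y hy).2⟩⟩

theorem at_of {v : HeightOneSpectrum (𝓞 K)} {r s : ℕ} {π : K} {c : b.support → ℤ} {h : GQ Q}
    (hh : AtV v r s (hb b) π (Sum.elim (fun _ => 0) (pr b c)) (Mh Q h) (Mh Q h⁻¹)) : L1S.AtVL b v r s π c h.1 := by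
  obtain ⟨h2, h3⟩ := hh
  refine ⟨iwV_of ?_, iwV_of ?_⟩
  · have e : (fun i => algebraMap K L π ^ L1S.pr b c i) = fun i => algebraMap K L π ^ (Sum.elim (fun _ => 0) (pr b c) : b.support ⊕ ι → ℤ) i := by
      funext i
      rcases i with i | β <;> rfl
    rw [e]
    exact h2
  · have e : (fun i => algebraMap K L π ^ (-L1S.pr b c i)) = fun i => algebraMap K L π ^ (-(Sum.elim (fun _ => 0) (pr b c) : b.support ⊕ ι → ℤ) i) := by
      funext i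
      rcases i with i | β <;> rfl
    rw [e]
    exact h3

theorem gen_of {𝔫 : Ideal (𝓞 K)} {v : HeightOneSpectrum (𝓞 K)} {r s : ℕ} {θ : b.support → (mixedEmbedding.mixedSpace L →ₗ[ℝ] ℝ)}
    (h : Gen (Mr Q) (Uni (hb b) (Mr Q)) (mixedEmbedding L) (Gam 𝔫 v r s (hb b) (Mh Q) (em0 Q)) (fun i => (Sum.inl i, Sum.inr (P.reflectionPerm i i))) (sp Q) θ) : L1S.GenQ (q0 Q) 𝔫 v r s θ := by
  refine ⟨h.1, fun u hu => h.2 u ?_⟩
  rw [gam_eq]
  exact hu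

/-! ## The archimedean places -/

section places

variable {F : Type} [RCLike F]

/-- The embedding in the form of `PV`. -/
def toPV (V : PlQ Q F) : PV.Pl K (PV.eQ b) (PV.fQ b) (PV.GR (oq Q)) F where
  w := V.w
  unr := V.unr
  p := V.p
  surj := V.surj
  norm := V.norm
  j := V.j
  cont := V.cont
  at_w := V.at_w
  off_w := V.off_w

/-- The embedding in the final form. -/
def ofPV (V : PV.Pl K (PV.eQ b) (PV.fQ b) (PV.GR (oq Q)) F) : PlQ Q F where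
  w := V.w
  unr := V.unr
  p := V.p
  surj := V.surj
  norm := V.norm
  j := V.j
  cont := V.cont
  at_w := V.at_w
  off_w := V.off_w

variable [P.IsRootSystem] [P.IsReduced] [P.IsIrreducible]

theorem sph_of {V : PlQ Q F} {z : b.support → ℂ} {X : Gr Q → ℂ} (h : Sph (matF (eb b) (fb b) F) (eb b) (fb b) (hb b) (fun y => Sum.elim (fun _ => 0) (vl b y)) V.j z X) :
    PV.Sph (PV.h0 b) (PV.tor0 b) (toPV Q V).j z X := h

theorem places [IsGalois K L] (w : InfinitePlace L) (hw : w.IsUnramified K) : (w.IsReal → ∃ V : PlQ Q ℝ, V.w = w) ∧ (w.IsComplex → ∃ V : PlQ Q ℂ, V.w = w) := by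
  obtain ⟨h1, h2⟩ := (PV.expDensity (oq Q)).1 w hw
  refine ⟨fun h => ?_, fun h => ?_⟩
  · obtain ⟨V, hV⟩ := h1 h
    exact ⟨ofPV Q V, hV⟩
  · obtain ⟨V, hV⟩ := h2 h
    exact ⟨ofPV Q V, hV⟩

end places

/-! ## The theorem -/

section main

variable [P.IsRootSystem] [P.IsReduced] [P.IsIrreducible]

theorem orb_of {Λ y : b.support → ℝ} (h : y ∈ Orb b Λ) : ∃ l : List b.support, y = L8.wl (fun i j => b.cartanMatrix i j) l Λ := PV.orb_of h

theorem typ_card {n : ℕ} {A : Matrix (Fin n) (Fin n) ℤ} (h : Typ b A) : n = Fintype.card b.support := by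
  obtain ⟨e, _⟩ := h
  rw [Fintype.card_congr e, Fintype.card_fin]

/-- The numbers `D` are bounded and positive. -/
theorem dim_bd {q q' : Prop} {D : ℕ} (h : Dim b q q' D) : 0 < D ∧ D ≤ 6 * Fintype.card b.support ^ 2 + 4 * Fintype.card b.support + 2000 := by
  rcases h with ⟨_, ⟨n, ⟨rfl, h3, rfl⟩ | ⟨h1, h3, rfl⟩ | ⟨rfl, h3, rfl⟩ | ⟨rfl, h3, rfl⟩ | ⟨h1, h3, rfl⟩ | ⟨h1, h3, rfl⟩ | ⟨h1, h3, rfl⟩⟩ | ⟨_, rfl⟩ | ⟨_, rfl⟩ | ⟨_, rfl⟩ | ⟨_, rfl⟩ | ⟨_, rfl⟩⟩ |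
    ⟨_, ⟨n, ⟨rfl, h3, rfl⟩ | ⟨rfl, h3, rfl⟩ | ⟨rfl, h3, rfl⟩ | ⟨h1, h3, rfl⟩ | ⟨h1, h3, rfl⟩⟩ | ⟨_, rfl⟩⟩
  · omega
  · rw [← typ_card h3]
    refine ⟨by positivity, by nlinarith⟩
  · omega
  · omega
  · rw [← typ_card h3]
    have h4 : (2 * n - 1) * (3 * n + 2) ≤ 2 * n * (3 * n + 2) := Nat.mul_le_mul_right _ (Nat.sub_le _ _)
    refine ⟨Nat.mul_pos (by omega) (by omega), by nlinarith⟩
  · rw [← typ_card h3]
    refine ⟨by positivity, by nlinarith⟩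
  · rw [← typ_card h3]
    have h4 : 6 * n * (n - 1) ≤ 6 * n * n := Nat.mul_le_mul_left _ (Nat.sub_le _ _)
    refine ⟨Nat.mul_pos (by omega) (by omega), by nlinarith⟩
  · omega
  · omega
  · omega
  · omega
  · omega
  · omega
  · omega
  · omega
  · rw [← typ_card h3]
    refine ⟨by positivity, by nlinarith⟩
  · rw [← typ_card h3]
    have h4 : 2 * (n - 1) * (3 * n - 1) ≤ 2 * n * (3 * n) := Nat.mul_le_mul (Nat.mul_le_mul_left _ (Nat.sub_le _ _)) (Nat.sub_le _ _)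
    refine ⟨Nat.mul_pos (by omega) (by omega), by nlinarith⟩
  · omega

/-- The largest number `D`. -/
theorem ex_dim {q q' : Prop} (h : ∃ D, Dim b q q' D) : ∃ D, Dim b q q' D ∧ ∀ D', Dim b q q' D' → D' ≤ D := by
  have h2 : BddAbove {D | Dim b q q' D} := ⟨_, fun D hD => (dim_bd hD).2⟩
  exact ⟨sSup {D | Dim b q q' D}, Nat.sSup_mem h h2, fun D' h => le_csSup h2 h⟩

theorem aut_of {𝔫 : Ideal (𝓞 K)} {v : HeightOneSpectrum (𝓞 K)} {r s : ℕ} {μ : Measure (L1S.HRt (L1S.HQ (q0 Q)))} {D : Set (L1S.HRt (L1S.HQ (q0 Q)))} {h : GQ Q}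
    {φ F : L1S.HRt (L1S.HQ (q0 Q)) → ℂ} {c t : ℂ} (hF : Aut (L1S.GamHR (L1S.HQ (q0 Q)) 𝔫 v r s) μ D (em0 Q h) φ F c t) :
    L1S.AuE (L1S.HQ (q0 Q)) (L1S.GamQ (L1S.HQ (q0 Q)) 𝔫 v r s) μ D φ c F ∧ L1S.IsTH (L1S.HQ (q0 Q)) 𝔫 v r s h F t :=
  ⟨⟨hF.cont, hF.inv, hF.l2, hF.eig⟩, hF.hec⟩

theorem real_fin (C Q I Y : ℝ) : C * Q * I * Y = C * I * (Q * Y) := by ring

/-- The volume. -/
theorem real_vol (s : Finset ι) (x : ι → ℝ) (hx : ∀ β, 0 ≤ x β) (f n : ℝ) : (∏ β ∈ s, x β) ^ f / n ^ s.card = ∏ β ∈ s, x β ^ f / n := by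
  rw [Finset.prod_div_distrib, Finset.prod_const, Real.finsetProd_rpow _ _ fun β _ => hx β]

theorem est [IsGalois K L] {D : ℕ} (hD : ∀ D', Dim b (Module.finrank K L = 1) (∃ s i, sp Q s i ≠ i) D' → D' ≤ D) (hS : L8.QF.StatementDQ (q0 Q) ((D : ℝ) / 2)) (p : ℕ) (F : Fin p → Type) [∀ k, RCLike (F k)] (V : ∀ k, PlQ Q (F k))
    (Λ : Fin p → b.support → ℝ) (hΛ : ∀ k, Λ k ∈ {Λ : b.support → ℝ | ∀ i : b.support, 0 ≤ vl b Λ i}) :
    Est K (hb b) (mixedEmbedding L) (Mh Q) (Mr Q) (em0 Q) (fun i => (Sum.inl i, Sum.inr (P.reflectionPerm i i))) (sp Q) p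
      (fun k => Sph (matF (eb b) (fb b) (F k)) (eb b) (fb b) (hb b) (fun y => Sum.elim (fun _ => 0) (vl b y)) (V k).j) (fun k => Orb b (Λ k)) (Adm Q p (fun k => Module.finrank ℝ (F k)) Λ) := by
  intro m1 hm1 m2 hm2 ε T hε Ω hΩ
  obtain rfl : m1 = borel _ := hm1.measurable_eq
  obtain rfl : m2 = borel _ := hm2.measurable_eq
  choose V' hV' using fun k => PV.pl_plH (toPV Q (V k))
  have hΛ' : ∀ (k : Fin p) i, 0 ≤ L8.al (fun i j => b.cartanMatrix i j) i (Λ k) := fun k i => by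
    have h : 0 ≤ PV.vl b (Λ k) i := hΛ k i
    rw [← PV.pry_inr, L8.ig19b_al] at h
    exact h
  have hΩ' : IsCompact ((fun x : L1S.HRt (L1S.HQ (q0 Q)) => x.1.1) '' Ω) := hΩ.image (continuous_subtype_val.comp continuous_subtype_val)
  obtain ⟨C, hC⟩ := hS p F V' Λ hΛ' ε hε T _ Ω hΩ' hΩ
  refine ⟨C, ?_⟩
  rintro v 𝔫 h𝔫 hv r s π hπ h w hh hat θ hθ t x d ht ⟨u, hu, ω, hω, hx⟩ R X hR ⟨c, a, D', hcQ, hc, hrs, rfl, rfl, hD', ha, hsz, rfl⟩ μ hμ φ cφ sφ ν hν D₁ D₀ hD₁ hD₀ m f c' t' z y hf hort hsp hzT hy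
  have hn : (1 : ℝ) ≤ (Ideal.absNorm 𝔫 : ℝ) := by
    have h1 : 0 < Ideal.absNorm 𝔫 := Nat.pos_of_ne_zero fun e => h𝔫 (Ideal.absNorm_eq_zero_iff.1 e)
    exact_mod_cast h1
  have huu : ∀ β, a β * (t⁻¹).1.1.1 (Sum.inr β) (Sum.inr β) = 1 := by
    intro β
    have h1 : t.1.1.1 * (t⁻¹).1.1.1 = 1 := t.1.1.mul_inv
    have h2 := congrFun (congrFun h1 (Sum.inr β)) (Sum.inr β)
    have h3 : t.1.1.1 = Matrix.diagonal (Sum.elim (fun _ => 1) a) := ht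
    rw [h3, Matrix.diagonal_mul, Matrix.one_apply_eq] at h2
    exact h2
  let a' : ι → (mixedEmbedding.mixedSpace L)ˣ := fun β => Units.mkOfMulEqOne _ _ (huu β)
  have hθ' := gen_of Q hθ
  rw [gam_eq] at hD₁ hD₀ hf
  choose g hg using fun k l => orb_of (hy k l)
  have k1 := hC v 𝔫 h𝔫 hv r s c (fun s i => hcQ s i) hc (by
    rcases hrs with h1 | h1
    · exact Or.inl h1
    · exact Or.inr h1) π hπ h (hgl_of Q hh) (at_of Q hat) θ hθ' t a' ht x ⟨⟨u, hu⟩, ω.1.1, ⟨ω, hω, rfl⟩, by rw [hx]; rfl⟩ R hR ha (by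
    have hDD : (D' : ℝ) / 2 ≤ (D : ℝ) / 2 := by
      have h1 : (D' : ℝ) ≤ (D : ℝ) := by exact_mod_cast hD _ hD'
      linarith
    refine le_trans (le_of_eq ?_) (hsz.trans (Real.rpow_le_rpow_of_exponent_le hn hDD))
    congr 3
    exact Finset.sum_congr rfl fun k _ => by ring)
  have key := @k1 μ hμ φ cφ sφ ν hν D₁ hD₁ m f c' t' (fun l => (aut_of Q (hf l)).1) (fun l => (aut_of Q (hf l)).2) hort z hzT (fun k l => PV.sph_of (V' k) (by
    rw [hV' k]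
    exact hsp k l)) D₀ hD₀ g
  refine le_trans (le_of_eq (Finset.sum_congr rfl fun l _ => ?_)) (key.trans (le_of_eq ?_))
  · have e : (fun k => R k * (∑ j, (z k l j).re * y k l j - ε)) = fun k => R k * (∑ j, (z k l j).re * L8.wl (fun i j => b.cartanMatrix i j) (g k l) (Λ k) j - ε) := by
      funext k
      rw [hg k l]
    rw [e]
    rfl
  · have e1 : (∏ β ∈ L1S.Pos b, mixedEmbedding.norm (a' β : mixedEmbedding.mixedSpace L)) ^ ((Module.finrank K L : ℝ)⁻¹) / (Ideal.absNorm 𝔫 : ℝ) ^ (L1S.Pos b).card =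
        ∏ β with 0 < b.height β, mixedEmbedding.norm (a β) ^ ((Module.finrank K L : ℝ)⁻¹) / Ideal.absNorm 𝔫 :=
      real_vol (L1S.Pos b) (fun β => mixedEmbedding.norm (a β)) (fun β => mixedEmbedding.norm_nonneg _) _ _
    have e3 : ∑ β ∈ L1S.Pos b, L1S.pr b c (Sum.inr β) = ∑ β with 0 < b.height β, pr b c β := rfl
    rw [e1, e3]
    exact real_fin _ _ _ _

/-- Without a number `D` there is nothing to prove. -/
theorem est_no (h : ¬∃ D, Dim b (Module.finrank K L = 1) (∃ s i, sp Q s i ≠ i) D) (p : ℕ) (F : Fin p → Type) [∀ k, RCLike (F k)] (V : ∀ k, PlQ Q (F k)) (Λ : Fin p → b.support → ℝ) :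
    Est K (hb b) (mixedEmbedding L) (Mh Q) (Mr Q) (em0 Q) (fun i => (Sum.inl i, Sum.inr (P.reflectionPerm i i))) (sp Q) p
      (fun k => Sph (matF (eb b) (fb b) (F k)) (eb b) (fb b) (hb b) (fun y => Sum.elim (fun _ => 0) (vl b y)) (V k).j) (fun k => Orb b (Λ k)) (Adm Q p (fun k => Module.finrank ℝ (F k)) Λ) := by
  intro m1 hm1 m2 hm2 ε T hε Ω hΩ
  refine ⟨0, ?_⟩
  rintro v 𝔫 h𝔫 hv r s π hπ h' w hh hat θ hθ t x d ht hx R X hR ⟨c, a, D', hcQ, hc, hrs, hw, hd, hD', _⟩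
  exact absurd ⟨D', hD'⟩ h

/-- **The density theorem**, from the statement of QF/M5. -/
theorem beyondQ_of [IsGalois K L] (h : ∀ D, Dim b (Module.finrank K L = 1) (∃ s i, sp Q s i ≠ i) D → L8.QF.StatementDQ (q0 Q) ((D : ℝ) / 2)) : BeyondDensityQ Q := by
  refine ⟨places Q, fun p F _ V Λ hΛ => ?_⟩
  by_cases he : ∃ D, Dim b (Module.finrank K L = 1) (∃ s i, sp Q s i ≠ i) D
  · obtain ⟨D, h1, h2⟩ := ex_dim he
    exact est Q h2 (h D h1) p F V Λ hΛ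
  · exact est_no Q he p F V Λ

end main

end

end Pool.Agent.Lib.L8.PQX
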